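import Pool.Agent.Helper63.Sey2.Goals

/-!
# Packet SEY2-LLLC: the lopsided local lemma for counting
-/

namespace Pool.Agent.Helper77.Sey2

open Pool.Agent.Helper63.Sey2

theorem goalLLLC : GoalLLLC := by
  classical
  intro Ω J _ _ _ A Γ p d hp0 hd h4 hdeg hdep
  -- counting function
  let N : (Ω → Prop) → ℝ := fun P => (Nat.card {ω // P ω} : ℝ)
  have hN : ∀ (P : Ω → Prop) [DecidablePred P], N P = ((Finset.univ.filter P).card : ℝ) := by
    intro P _
    change (Nat.card {ω // P ω} : ℝ) = _
    rw [Nat.card_eq_fintype_card, Fintype.card_subtype]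
  have hNmono : ∀ P P' : Ω → Prop, (∀ ω, P ω → P' ω) → N P ≤ N P' := by
    intro P P' h
    rw [hN, hN]
    have : (Finset.univ.filter P) ⊆ (Finset.univ.filter P') := by
      intro ω hω
      simp only [Finset.mem_filter, Finset.mem_univ, true_and] at hω ⊢
      exact h ω hω
    exact_mod_cast Finset.card_le_card this
  have hNnonneg : ∀ P : Ω → Prop, 0 ≤ N P := fun P => by
    rw [hN]; positivity
  have hNsplit : ∀ P R : Ω → Prop, N P = N (fun ω => R ω ∧ P ω) + N (fun ω => P ω ∧ ¬ R ω) := by
    intro P R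
    have h1 := Finset.card_filter_add_card_filter_not (s := Finset.univ.filter P) (p := R)
    rw [Finset.filter_filter, Finset.filter_filter] at h1
    have e1 : (Finset.univ.filter fun ω => P ω ∧ R ω) = Finset.univ.filter fun ω => R ω ∧ P ω := by
      ext ω; simp [and_comm]
    rw [e1] at h1
    have h2 : (((Finset.univ.filter fun ω => R ω ∧ P ω).card + (Finset.univ.filter fun ω => P ω ∧ ¬ R ω).card : ℕ) : ℝ)
        = ((Finset.univ.filter P).card : ℝ) := by
      exact_mod_cast h1
    push_cast at h2
    have a1 := hN P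
    have a2 := hN (fun ω => R ω ∧ P ω)
    have a3 := hN (fun ω => P ω ∧ ¬ R ω)
    rw [a1, ← h2]
    exact (congrArg₂ (· + ·) a2 a3).symm
  let Q : Finset J → ℝ := fun T => N (fun ω => ∀ i ∈ T, ¬ A i ω)
  have hins : ∀ T j, Q (insert j T) = Q T - N (fun ω => A j ω ∧ ∀ i ∈ T, ¬ A i ω) := by
    intro T j
    have h1 := hNsplit (fun ω => ∀ i ∈ T, ¬ A i ω) (A j)
    have h2 : (fun ω : Ω => ∀ i ∈ insert j T, ¬ A i ω)
        = (fun ω => (∀ i ∈ T, ¬ A i ω) ∧ ¬ A j ω) := by
      funext ω
      apply propext
      simp only [Finset.mem_insert, forall_eq_or_imp]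
      tauto
    change N (fun ω : Ω => ∀ i ∈ insert j T, ¬ A i ω) = _
    rw [h2]
    change _ = N (fun ω => ∀ i ∈ T, ¬ A i ω) - _
    linarith
  have hQ0 : 0 < Q ∅ := by
    change 0 < N (fun ω => ∀ i ∈ (∅ : Finset J), ¬ A i ω)
    have e : (fun ω : Ω => ∀ i ∈ (∅ : Finset J), ¬ A i ω) = fun _ => True := by
      funext ω; simp
    rw [e, hN (fun _ : Ω => True)]
    have := Finset.card_pos.2 (Finset.univ_nonempty (α := Ω))
    simpa using this
  have hQmono : ∀ T T' : Finset J, T ⊆ T' → Q T' ≤ Q T := by
    intro T T' h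
    exact hNmono _ _ fun ω hω j hj => hω j (h hj)
  have h4p : 4 * p ≤ 1 := by
    have : 4 * p * 1 ≤ 4 * p * d := by
      have hd' : (1 : ℝ) ≤ d := by exact_mod_cast hd
      gcongr
    linarith
  have key : ∀ n : ℕ, ∀ T : Finset J, T.card ≤ n →
      0 < Q T ∧ ∀ j, N (fun ω => A j ω ∧ ∀ i ∈ T, ¬ A i ω) ≤ 2 * p * Q T := by
    intro n
    induction n with
    | zero =>
      intro T hT
      have : T = ∅ := Finset.card_eq_zero.1 (Nat.le_zero.1 hT)
      subst this
      refine ⟨hQ0, fun j => ?_⟩
      have := hdep j ∅ (by simp)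
      change N (fun ω => A j ω ∧ ∀ i ∈ (∅ : Finset J), ¬ A i ω) ≤ p * Q ∅ at this
      nlinarith
    | succ n ih =>
      intro T hT
      have hpos : 0 < Q T := by
        rcases T.eq_empty_or_nonempty with rfl | ⟨j, hj⟩
        · exact hQ0
        · have hc : (T.erase j).card ≤ n := by
            have := Finset.card_erase_of_mem hj
            omega
          have h1 := ih (T.erase j) hc
          have h2 := hins (T.erase j) j
          rw [Finset.insert_erase hj] at h2
          have h3 := h1.2 j
          rw [h2]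
          nlinarith [h1.1]
      refine ⟨hpos, fun j => ?_⟩
      have hT2dep := hdep j (T \ Γ j) Finset.sdiff_disjoint
      change N (fun ω => A j ω ∧ ∀ i ∈ T \ Γ j, ¬ A i ω) ≤ p * Q (T \ Γ j) at hT2dep
      have hle : N (fun ω => A j ω ∧ ∀ i ∈ T, ¬ A i ω)
          ≤ N (fun ω => A j ω ∧ ∀ i ∈ T \ Γ j, ¬ A i ω) :=
        hNmono _ _ fun ω hω => ⟨hω.1, fun i hi => hω.2 i (Finset.sdiff_subset hi)⟩
      rcases (T ∩ Γ j).eq_empty_or_nonempty with he | hne
      · have : T \ Γ j = T := by
          rw [Finset.sdiff_eq_self_iff_disjoint, Finset.disjoint_iff_inter_eq_empty]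
          exact he
        rw [this] at hT2dep hle
        nlinarith
      · have hc : (T \ Γ j).card ≤ n := by
          have h1 : (T \ Γ j).card < T.card := by
            apply Finset.card_lt_card
            refine ⟨Finset.sdiff_subset, fun h => ?_⟩
            obtain ⟨x, hx⟩ := hne
            have hx' := h (Finset.mem_of_mem_inter_left hx)
            exact (Finset.mem_sdiff.1 hx').2 (Finset.mem_of_mem_inter_right hx)
          omega
        have ih2 := ih (T \ Γ j) hc
        -- lower bound for Q T
        have hlow : ∀ W : Finset J, Q (T \ Γ j ∪ W) ≥ Q (T \ Γ j) - W.card * (2 * p * Q (T \ Γ j)) := by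
          intro W
          induction W using Finset.induction_on with
          | empty => simp
          | insert a W ha ihW =>
            rw [Finset.union_insert, hins, Finset.card_insert_of_notMem ha]
            have h1 : N (fun ω => A a ω ∧ ∀ i ∈ T \ Γ j ∪ W, ¬ A i ω)
                ≤ N (fun ω => A a ω ∧ ∀ i ∈ T \ Γ j, ¬ A i ω) :=
              hNmono _ _ fun ω hω => ⟨hω.1, fun i hi => hω.2 i (Finset.mem_union_left _ hi)⟩
            have h2 := ih2.2 a
            push_cast
            linarith
        have hT : T \ Γ j ∪ (T ∩ Γ j) = T := Finset.sdiff_union_inter T (Γ j)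
        have h5 := hlow (T ∩ Γ j)
        rw [hT] at h5
        have h6 : ((T ∩ Γ j).card : ℝ) ≤ d := by
          have := (Finset.card_le_card (Finset.inter_subset_right (s₁ := T) (s₂ := Γ j))).trans (hdeg j)
          exact_mod_cast this
        have h7 : ((T ∩ Γ j).card : ℝ) * (2 * p * Q (T \ Γ j)) ≤ d * (2 * p * Q (T \ Γ j)) := by
          have : 0 ≤ 2 * p * Q (T \ Γ j) := by
            have := ih2.1.le
            positivity
          gcongr
        have h8 : d * (2 * p * Q (T \ Γ j)) ≤ Q (T \ Γ j) / 2 := by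
          have h9 : (4 * p * d) * Q (T \ Γ j) ≤ 1 * Q (T \ Γ j) := by
            have := ih2.1.le
            gcongr
          linarith
        have h10 : Q (T \ Γ j) ≤ 2 * Q T := by linarith
        calc N (fun ω => A j ω ∧ ∀ i ∈ T, ¬ A i ω) ≤ p * Q (T \ Γ j) := hle.trans hT2dep
          _ ≤ p * (2 * Q T) := by gcongr
          _ = 2 * p * Q T := by ring
  have hfin := (key Finset.univ.card Finset.univ le_rfl).1
  change 0 < N (fun ω => ∀ i ∈ (Finset.univ : Finset J), ¬ A i ω) at hfin
  by_contra hcon
  push Not at hcon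
  have hle : N (fun ω => ∀ i ∈ (Finset.univ : Finset J), ¬ A i ω) ≤ N (fun _ => False) := by
    apply hNmono
    intro ω hω
    obtain ⟨j, hj⟩ := hcon ω
    exact hω j (Finset.mem_univ j) hj
  have hz : N (fun _ : Ω => False) = 0 := by
    rw [hN (fun _ : Ω => False)]
    simp
  rw [hz] at hle
  exact absurd hfin (not_lt.2 hle)

end Pool.Agent.Helper77.Sey2
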